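import Pool.Agent.Lib.MP_7b5e47_an.Hn.Final

namespace Pool.Agent.Results.MP_7b5e47_an.RaysLand

open Filter Topology Pool.Agent.Lib.MP_7b5e47_an.Hn

/-- every external ray of a dissipative quasi-expanding generalized Henon map lands at a point
of `J` -/
theorem result (L : List (ℂˣ × Polynomial ℂ)) (hL : IsHenon L)
    (hdis : ∀ z, ‖(fderiv ℂ (⇑(comp L)) z).det‖ < 1) (hq : QuasiExpanding (comp L) (deg L))
    (p : ℂ × ℂ) (hp : IsSaddle (comp L) p) (ξ : ℂ → ℂ × ℂ) (hξ : IsUParam (comp L) p ξ)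
    (γ : ℝ → ℂ) (hγ : IsRay (comp L) (deg L) ξ γ) :
    ∃ ζ : ℂ, ξ ζ ∈ Jul (comp L) ∧ Tendsto γ atTop (𝓝 ζ) ∧
      Tendsto (fun t => ξ (γ t)) atTop (𝓝 (ξ ζ)) := by
  obtain ⟨a, Gm, μ, h⟩ := exists_sys hL
  have ha : ‖a‖ < 1 := by
    have h1 := h.aut.jac 0 (1, 0) (0, 1)
    rw [det2_map] at h1
    have h2 : (fderiv ℂ (⇑(comp L)) 0).det = a := by simpa [det2] using h1
    exact h2 ▸ hdis 0
  obtain ⟨κ, hκ, hQ⟩ := qe_of_quasi h.aut h.gp hq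
  have hl := leaf_of_qe h ha hκ hQ hp hξ
  obtain ⟨D₀, hD⟩ := depth_bound h ha hl
  obtain ⟨z, hz⟩ := hl.lands h.aut h.gp h.gm hD (fun t ht => ⟨(h.gp.nonneg _).lt_of_ne
    fun e => (hγ.1 t ht).1 ((h.gp.zero_iff _).1 e.symm), (hγ.1 t ht).2⟩) hγ.2
  have h1 : Tendsto (fun t => ξ (γ t)) atTop (𝓝 (ξ z)) := (hξ.1.continuous.tendsto z).comp hz
  obtain ⟨w, hw, h2⟩ := target L hL hdis hq p ξ γ hp hξ hγ
  exact ⟨z, tendsto_nhds_unique h2 h1 ▸ hw, hz, h1⟩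

end Pool.Agent.Results.MP_7b5e47_an.RaysLand
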